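import Pool.Agent.Helper44.GN.Defs

/-!
# The pointwise limit of the integrals (module LP1 of the project GN)
-/

namespace Pool.Agent.Helper85.GNLP1

open Finset MeasureTheory Filter Topology
open Pool.Agent.Helper44.GN

/-- The integrand. -/
noncomputable def gg (α v : ℝ) : ℝ := (1 - Real.exp (-v)) * v ^ (-1 - α)

/-- The primitive. -/
noncomputable def KK (α w : ℝ) : ℝ := ∫ v in (0 : ℝ)..w, gg α v

theorem KK_top (α : ℝ) (h : IntegrableOn (gg α) (Set.Ioi 0)) :
    Tendsto (KK α) atTop (𝓝 (Jg α)) :=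
  MeasureTheory.intervalIntegral_tendsto_integral_Ioi 0 h tendsto_id

theorem KK_zero (α : ℝ) (h : IntegrableOn (gg α) (Set.Ioi 0)) :
    Tendsto (KK α) (𝓝[>] 0) (𝓝 0) := by
  have h1 : IntegrableOn (gg α) (Set.uIcc 0 1) := by
    rw [Set.uIcc_of_le (by norm_num : (0 : ℝ) ≤ 1), integrableOn_Icc_iff_integrableOn_Ioc]
    exact h.mono_set Set.Ioc_subset_Ioi_self
  have h2 := intervalIntegral.continuousOn_primitive_interval (a := 0) (b := 1) h1
  have h3 : ContinuousWithinAt (KK α) (Set.uIcc 0 1) 0 := h2 0 Set.left_mem_uIcc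
  have h4 : Tendsto (KK α) (𝓝[Set.uIcc 0 1] 0) (𝓝 0) := by
    have h5 := h3.tendsto
    have h6 : KK α 0 = 0 := by simp [KK]
    rwa [h6] at h5
  refine h4.mono_left ?_
  rw [Set.uIcc_of_le (by norm_num : (0 : ℝ) ≤ 1)]
  rw [nhdsWithin_Icc_eq_nhdsGE (by norm_num : (0 : ℝ) < 1)]
  exact nhdsWithin_mono _ Set.Ioi_subset_Ici_self

theorem KK_der (α : ℝ) (h : IntegrableOn (gg α) (Set.Ioi 0)) (w : ℝ) (hw : 0 < w) :
    HasDerivAt (KK α) (gg α w) w := by
  have hc : ContinuousOn (gg α) (Set.Ioi 0) := by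
    unfold gg
    apply ContinuousOn.mul
    · fun_prop
    · intro v hv
      exact (Real.continuousAt_rpow_const v (-1 - α)
        (Or.inl (ne_of_gt (Set.mem_Ioi.mp hv)))).continuousWithinAt
  have hi : IntervalIntegrable (gg α) volume 0 w := by
    rw [intervalIntegrable_iff_integrableOn_Ioc_of_le hw.le]
    exact h.mono_set Set.Ioc_subset_Ioi_self
  apply intervalIntegral.integral_hasDerivAt_right hi
  · exact hc.stronglyMeasurableAtFilter isOpen_Ioi w hw
  · exact hc.continuousAt (Ioi_mem_nhds hw)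

theorem prim (α A δ : ℝ) (hα : 0 < α) (hA : 0 < A) (hδ : 0 < δ) (hδ1 : δ ≤ 1)
    (h : IntegrableOn (gg α) (Set.Ioi 0)) :
    ∫ z in δ..1, z ^ 3 * (1 - Real.exp (-(A * z ^ (-(4 / α)))))
      = α / 4 * A ^ α * (KK α (A * δ ^ (-(4 / α))) - KK α A) := by
  have hder : ∀ z ∈ Set.uIcc δ 1, HasDerivAt
      (fun z => -(α / 4 * A ^ α) * KK α (A * z ^ (-(4 / α))))
      (z ^ 3 * (1 - Real.exp (-(A * z ^ (-(4 / α)))))) z := by
    intro z hz
    rw [Set.uIcc_of_le hδ1] at hz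
    have hz0 : 0 < z := lt_of_lt_of_le hδ hz.1
    have hw : 0 < A * z ^ (-(4 / α)) := mul_pos hA (Real.rpow_pos_of_pos hz0 _)
    have h1 : HasDerivAt (fun z : ℝ => A * z ^ (-(4 / α)))
        (A * (-(4 / α) * z ^ (-(4 / α) - 1))) z :=
      (Real.hasDerivAt_rpow_const (Or.inl hz0.ne')).const_mul A
    have h2 := ((KK_der α h _ hw).comp z h1).const_mul (-(α / 4 * A ^ α))
    have h3 : -(α / 4 * A ^ α) * (gg α (A * z ^ (-(4 / α))) * (A * (-(4 / α) * z ^ (-(4 / α) - 1))))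
        = z ^ 3 * (1 - Real.exp (-(A * z ^ (-(4 / α))))) := by
      unfold gg
      have e1 : (A * z ^ (-(4 / α))) ^ (-1 - α) = A ^ (-1 - α) * z ^ (4 / α + 4) := by
        rw [Real.mul_rpow hA.le (Real.rpow_nonneg hz0.le _), ← Real.rpow_mul hz0.le]
        congr 2
        field_simp
        ring
      have e2 : A ^ α * A ^ (-1 - α) * A = 1 := by
        rw [← Real.rpow_add hA]
        have : α + (-1 - α) = -1 := by ring
        rw [this, Real.rpow_neg_one]
        exact inv_mul_cancel₀ hA.ne'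
      have e3 : z ^ (4 / α + 4) * z ^ (-(4 / α) - 1) = z ^ 3 := by
        rw [← Real.rpow_add hz0]
        have : 4 / α + 4 + (-(4 / α) - 1) = ((3 : ℕ) : ℝ) := by push_cast; ring
        rw [this, Real.rpow_natCast]
      rw [e1]
      have e4 : α / 4 * (4 / α) = 1 := by field_simp
      calc -(α / 4 * A ^ α) * ((1 - Real.exp (-(A * z ^ (-(4 / α)))))
            * (A ^ (-1 - α) * z ^ (4 / α + 4)) * (A * (-(4 / α) * z ^ (-(4 / α) - 1))))
          = (α / 4 * (4 / α)) * (A ^ α * A ^ (-1 - α) * A)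
            * (z ^ (4 / α + 4) * z ^ (-(4 / α) - 1))
            * (1 - Real.exp (-(A * z ^ (-(4 / α))))) := by ring
        _ = z ^ 3 * (1 - Real.exp (-(A * z ^ (-(4 / α))))) := by
          rw [e2, e3, e4]; ring
    have h4 : HasDerivAt (fun z => -(α / 4 * A ^ α) * KK α (A * z ^ (-(4 / α))))
      (-(α / 4 * A ^ α) * (gg α (A * z ^ (-(4 / α))) * (A * (-(4 / α) * z ^ (-(4 / α) - 1))))) z :=
      h2
    rwa [h3] at h4
  have hint : IntervalIntegrable (fun z : ℝ => z ^ 3 * (1 - Real.exp (-(A * z ^ (-(4 / α))))))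
      volume δ 1 := by
    apply ContinuousOn.intervalIntegrable
    rw [Set.uIcc_of_le hδ1]
    have hr : ContinuousOn (fun z : ℝ => z ^ (-(4 / α))) (Set.Icc δ 1) := by
      intro v hv
      exact (Real.continuousAt_rpow_const v _
        (Or.inl (ne_of_gt (lt_of_lt_of_le hδ hv.1)))).continuousWithinAt
    fun_prop
  rw [intervalIntegral.integral_eq_sub_of_hasDerivAt hder hint]
  simp only [Real.one_rpow, mul_one]
  ring

theorem err (α A c δ : ℝ) (hA : 0 < A) (hc : 0 ≤ c) (hδ : 0 < δ) (hδ1 : δ ≤ 1) :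
    |(∫ z in δ..1, z ^ 3 * (1 - Real.exp (-(c + A * z ^ (-(4 / α))))))
      - ∫ z in δ..1, z ^ 3 * (1 - Real.exp (-(A * z ^ (-(4 / α)))))| ≤ c := by
  have hr : ContinuousOn (fun z : ℝ => z ^ (-(4 / α))) (Set.Icc δ 1) := by
    intro v hv
    exact (Real.continuousAt_rpow_const v _
      (Or.inl (ne_of_gt (lt_of_lt_of_le hδ hv.1)))).continuousWithinAt
  have hint1 : IntervalIntegrable (fun z : ℝ => z ^ 3 * (1 - Real.exp (-(A * z ^ (-(4 / α))))))
      volume δ 1 := by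
    apply ContinuousOn.intervalIntegrable
    rw [Set.uIcc_of_le hδ1]
    fun_prop
  have hint2 : IntervalIntegrable
      (fun z : ℝ => z ^ 3 * (1 - Real.exp (-(c + A * z ^ (-(4 / α)))))) volume δ 1 := by
    apply ContinuousOn.intervalIntegrable
    rw [Set.uIcc_of_le hδ1]
    fun_prop
  rw [← intervalIntegral.integral_sub hint2 hint1]
  have h1 : ‖∫ z in δ..1, (z ^ 3 * (1 - Real.exp (-(c + A * z ^ (-(4 / α)))))
      - z ^ 3 * (1 - Real.exp (-(A * z ^ (-(4 / α))))))‖ ≤ c * |1 - δ| := by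
    apply intervalIntegral.norm_integral_le_of_norm_le_const
    intro z hz
    rw [Set.uIoc_of_le hδ1] at hz
    have hz0 : 0 < z := lt_trans hδ hz.1
    have hz1 : z ≤ 1 := hz.2
    set q := A * z ^ (-(4 / α)) with hq
    have hq0 : 0 ≤ q := mul_nonneg hA.le (Real.rpow_nonneg hz0.le _)
    have e1 : Real.exp (-(c + q)) = Real.exp (-c) * Real.exp (-q) := by
      rw [← Real.exp_add]; congr 1; ring
    have e2 : Real.exp (-q) ≤ 1 := Real.exp_le_one_iff.mpr (by linarith)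
    have e3 : 0 < Real.exp (-q) := Real.exp_pos _
    have e4 : Real.exp (-c) ≤ 1 := Real.exp_le_one_iff.mpr (by linarith)
    have e5 : 1 - c ≤ Real.exp (-c) := by
      have := Real.add_one_le_exp (-c); linarith
    have e6 : z ^ 3 ≤ 1 := pow_le_one₀ hz0.le hz1
    have e7 : 0 ≤ z ^ 3 := by positivity
    have e8 : z ^ 3 * (1 - Real.exp (-(c + q))) - z ^ 3 * (1 - Real.exp (-q))
        = z ^ 3 * ((1 - Real.exp (-c)) * Real.exp (-q)) := by
      rw [e1]; ring
    rw [e8, Real.norm_eq_abs, abs_of_nonneg (mul_nonneg e7 (mul_nonneg (by linarith) e3.le))]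
    have e9 : (1 - Real.exp (-c)) * Real.exp (-q) ≤ c := by nlinarith
    have e10 : 0 ≤ (1 - Real.exp (-c)) * Real.exp (-q) := mul_nonneg (by linarith) e3.le
    nlinarith
  rw [Real.norm_eq_abs] at h1
  refine h1.trans ?_
  have : |1 - δ| ≤ 1 := by
    rw [abs_of_nonneg (by linarith)]; linarith
  nlinarith [abs_nonneg (1 - δ)]

theorem result (hG : ST_GAM) : ST_LP1 := by
  intro α a hα hα1 ha u hu
  have hα0 : 0 < α := by linarith
  obtain ⟨hI, hJ⟩ := hG α hα0 hα1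
  have hI' : IntegrableOn (gg α) (Set.Ioi 0) := hI
  rcases hu.eq_or_lt with hu0 | hu0
  · rw [← hu0]
    have h0 : (fun k : ℕ => ((k : ℝ) + 1) * ∫ z in (1 / ((k : ℝ) + 2))..1,
      z ^ 3 * (1 - Real.exp (-(cs α a k * 0 * yy α a z)))) = fun _ => 0 := by
      funext k
      simp
    rw [h0, Real.zero_rpow hα0.ne']
    simp
  set D : ℝ := (α * Jg α) ^ (-(1 / α)) with hD
  have hαJ : 0 < α * Jg α := mul_pos hα0 hJ
  have hD0 : 0 < D := Real.rpow_pos_of_pos hαJ _
  -- the scale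
  have hcs : ∀ k : ℕ, cs α a k = D / a * ((k : ℝ) + 1) ^ (-(1 / α)) := fun k => rfl
  have hk1 : ∀ k : ℕ, (0 : ℝ) < (k : ℝ) + 1 := fun k => by positivity
  have hcs0 : ∀ k : ℕ, 0 < cs α a k := by
    intro k
    rw [hcs]
    exact mul_pos (div_pos hD0 ha) (Real.rpow_pos_of_pos (hk1 k) _)
  set A : ℕ → ℝ := fun k => u * D * ((k : ℝ) + 1) ^ (-(1 / α)) with hAdef
  have hA0 : ∀ k, 0 < A k := fun k =>
    mul_pos (mul_pos hu0 hD0) (Real.rpow_pos_of_pos (hk1 k) _)
  have hAα : ∀ k, A k ^ α = u ^ α / (α * Jg α) / ((k : ℝ) + 1) := by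
    intro k
    have e1 : A k ^ α = u ^ α * D ^ α * (((k : ℝ) + 1) ^ (-(1 / α))) ^ α := by
      simp only [hAdef]
      rw [Real.mul_rpow (mul_pos hu0 hD0).le (Real.rpow_nonneg (hk1 k).le _),
        Real.mul_rpow hu0.le hD0.le]
    have e2 : D ^ α = (α * Jg α)⁻¹ := by
      rw [hD, ← Real.rpow_mul hαJ.le]
      have : -(1 / α) * α = -1 := by field_simp
      rw [this, Real.rpow_neg_one]
    have e3 : (((k : ℝ) + 1) ^ (-(1 / α))) ^ α = ((k : ℝ) + 1)⁻¹ := by
      rw [← Real.rpow_mul (hk1 k).le]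
      have : -(1 / α) * α = -1 := by field_simp
      rw [this, Real.rpow_neg_one]
    rw [e1, e2, e3]
    ring
  have hkt : Tendsto (fun k : ℕ => (k : ℝ) + 1) atTop atTop :=
    tendsto_atTop_add_const_right _ _ tendsto_natCast_atTop_atTop
  have hAt : Tendsto A atTop (𝓝[>] 0) := by
    rw [tendsto_nhdsWithin_iff]
    refine ⟨?_, Eventually.of_forall fun k => hA0 k⟩
    have h1 : Tendsto (fun k : ℕ => ((k : ℝ) + 1) ^ (-(1 / α))) atTop (𝓝 0) :=
      (tendsto_rpow_neg_atTop (by positivity : (0 : ℝ) < 1 / α)).comp hkt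
    have h2 := h1.const_mul (u * D)
    rw [mul_zero] at h2
    exact h2
  -- the upper end point
  have hBt : Tendsto (fun k : ℕ => A k * (1 / ((k : ℝ) + 2)) ^ (-(4 / α))) atTop atTop := by
    have h1 : ∀ k : ℕ, u * D * ((k : ℝ) + 1) ^ (3 / α)
        ≤ A k * (1 / ((k : ℝ) + 2)) ^ (-(4 / α)) := by
      intro k
      have hk2 : (0 : ℝ) < (k : ℝ) + 2 := by positivity
      have e1 : (1 / ((k : ℝ) + 2)) ^ (-(4 / α)) = ((k : ℝ) + 2) ^ (4 / α) := by
        rw [one_div, Real.inv_rpow hk2.le, Real.rpow_neg hk2.le, inv_inv]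
      have e2 : ((k : ℝ) + 1) ^ (4 / α) ≤ ((k : ℝ) + 2) ^ (4 / α) :=
        Real.rpow_le_rpow (hk1 k).le (by linarith) (by positivity)
      have e3 : ((k : ℝ) + 1) ^ (-(1 / α)) * ((k : ℝ) + 1) ^ (4 / α)
          = ((k : ℝ) + 1) ^ (3 / α) := by
        rw [← Real.rpow_add (hk1 k)]
        congr 1
        ring
      rw [e1, ← e3]
      simp only [hAdef]
      have e4 : 0 < u * D * ((k : ℝ) + 1) ^ (-(1 / α)) := hA0 k
      nlinarith [mul_le_mul_of_nonneg_left e2 e4.le]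
    refine tendsto_atTop_mono h1 ?_
    apply Tendsto.const_mul_atTop (mul_pos hu0 hD0)
    exact (tendsto_rpow_atTop (by positivity : (0 : ℝ) < 3 / α)).comp hkt
  -- the main term
  have hmain : Tendsto (fun k : ℕ => ((k : ℝ) + 1) * ∫ z in (1 / ((k : ℝ) + 2))..1,
      z ^ 3 * (1 - Real.exp (-(A k * z ^ (-(4 / α)))))) atTop (𝓝 (u ^ α / 4)) := by
    have h1 : ∀ k : ℕ, ((k : ℝ) + 1) * ∫ z in (1 / ((k : ℝ) + 2))..1,
        z ^ 3 * (1 - Real.exp (-(A k * z ^ (-(4 / α)))))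
        = u ^ α / (4 * Jg α) * (KK α (A k * (1 / ((k : ℝ) + 2)) ^ (-(4 / α))) - KK α (A k)) := by
      intro k
      have hk2 : (0 : ℝ) < (k : ℝ) + 2 := by positivity
      have hd1 : 1 / ((k : ℝ) + 2) ≤ 1 := by
        rw [div_le_one hk2]
        have : (0 : ℝ) ≤ k := Nat.cast_nonneg k
        linarith
      rw [prim α (A k) (1 / ((k : ℝ) + 2)) hα0 (hA0 k) (by positivity) hd1 hI', hAα k]
      have := (hk1 k).ne'
      field_simp
    have h2 : Tendsto (fun k : ℕ => u ^ α / (4 * Jg α)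
        * (KK α (A k * (1 / ((k : ℝ) + 2)) ^ (-(4 / α))) - KK α (A k))) atTop
        (𝓝 (u ^ α / (4 * Jg α) * (Jg α - 0))) :=
      (((KK_top α hI').comp hBt).sub ((KK_zero α hI').comp hAt)).const_mul _
    have h3 : u ^ α / (4 * Jg α) * (Jg α - 0) = u ^ α / 4 := by
      have := hJ.ne'
      field_simp
      ring
    rw [h3] at h2
    exact h2.congr fun k => (h1 k).symm
  -- the error
  have herr : Tendsto (fun k : ℕ => ((k : ℝ) + 1) * (cs α a k * u)) atTop (𝓝 0) := by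
    have h1 : ∀ k : ℕ, D / a * u * ((k : ℝ) + 1) ^ (-(1 / α - 1))
        = ((k : ℝ) + 1) * (cs α a k * u) := by
      intro k
      have e1 : ((k : ℝ) + 1) ^ (-(1 / α - 1)) = ((k : ℝ) + 1) * ((k : ℝ) + 1) ^ (-(1 / α)) := by
        have : -(1 / α - 1) = 1 + -(1 / α) := by ring
        rw [this, Real.rpow_add (hk1 k), Real.rpow_one]
      rw [hcs, e1]
      ring
    have h3 : 0 < 1 / α - 1 := by
      have : 1 < 1 / α := by
        rw [lt_div_iff₀ hα0]; linarith
      linarith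
    have h2 : Tendsto (fun k : ℕ => D / a * u * ((k : ℝ) + 1) ^ (-(1 / α - 1))) atTop (𝓝 0) := by
      have h4 := ((tendsto_rpow_neg_atTop h3).comp hkt).const_mul (D / a * u)
      rw [mul_zero] at h4
      exact h4
    exact h2.congr h1
  have hdiff : Tendsto (fun k : ℕ => (((k : ℝ) + 1) * ∫ z in (1 / ((k : ℝ) + 2))..1,
      z ^ 3 * (1 - Real.exp (-(cs α a k * u * yy α a z))))
      - ((k : ℝ) + 1) * ∫ z in (1 / ((k : ℝ) + 2))..1,
        z ^ 3 * (1 - Real.exp (-(A k * z ^ (-(4 / α)))))) atTop (𝓝 0) := by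
    refine squeeze_zero_norm (fun k => ?_) herr
    have hk2 : (0 : ℝ) < (k : ℝ) + 2 := by positivity
    have hd1 : 1 / ((k : ℝ) + 2) ≤ 1 := by
      rw [div_le_one hk2]
      have : (0 : ℝ) ≤ k := Nat.cast_nonneg k
      linarith
    have h1 := err α (A k) (cs α a k * u) (1 / ((k : ℝ) + 2)) (hA0 k)
      (mul_pos (hcs0 k) hu0).le (by positivity) hd1
    have h2 : ∀ z : ℝ, cs α a k * u * yy α a z
        = cs α a k * u + A k * z ^ (-(4 / α)) := by
      intro z
      unfold yy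
      simp only [hAdef]
      rw [hcs]
      have := ha.ne'
      field_simp
    simp only [h2]
    rw [← mul_sub, Real.norm_eq_abs, abs_mul, abs_of_pos (hk1 k)]
    exact mul_le_mul_of_nonneg_left h1 (hk1 k).le
  have h := hdiff.add hmain
  rw [zero_add] at h
  refine h.congr fun k => ?_
  ring

end Pool.Agent.Helper85.GNLP1
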